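import Pool.Agent.H37.UM.Stmts

/-!
# Module FF of project UM (MP_a56223_co): coefficients, closed form and symmetry of `F m`
-/

set_option autoImplicit false

namespace Pool.Agent.H95.UM

open Pool.Agent.H37.UM PowerSeries Finset

namespace FF

theorem coeff_iv (p j : ℕ) : coeff j (iv p) = if j < p then 1 else 0 := by
  unfold iv
  rw [map_sum]
  simp only [coeff_X_pow]
  by_cases h : j < p
  · rw [if_pos h, Finset.sum_eq_single j]
    · rw [if_pos rfl]
    · intro b _ hb
      rw [if_neg (Ne.symm hb)]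
    · intro h'
      exact absurd (Finset.mem_range.2 h) h'
  · rw [if_neg h]
    apply Finset.sum_eq_zero
    intro b hb
    rw [if_neg]
    intro he
    subst he
    exact h (Finset.mem_range.1 hb)

theorem iv_mul (p : ℕ) : iv p * (1 - X) = 1 - X ^ p := by
  unfold iv
  have := geom_sum_mul_neg (X : ℤ⟦X⟧) p
  exact this

/-- the partial product -/
noncomputable def G (p v : ℕ) : ℤ⟦X⟧ := iv p * ∏ a ∈ range v, (1 + X ^ (2 ^ (a + 1) * p))

theorem G_succ (p v : ℕ) : G p (v + 1) = G p v * (1 + X ^ (2 ^ (v + 1) * p)) := by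
  unfold G
  rw [Finset.prod_range_succ, mul_assoc]

theorem G_mul (p v : ℕ) : G p v * ((1 - X) * (1 + X ^ p)) = 1 - X ^ (2 ^ (v + 1) * p) := by
  induction v with
  | zero =>
    have h1 : G p 0 = iv p := by unfold G; simp
    rw [h1, ← mul_assoc, iv_mul]
    ring
  | succ v ih =>
    rw [G_succ]
    have : G p v * (1 + X ^ (2 ^ (v + 1) * p)) * ((1 - X) * (1 + X ^ p)) =
        (G p v * ((1 - X) * (1 + X ^ p))) * (1 + X ^ (2 ^ (v + 1) * p)) := by ring
    rw [this, ih]
    ring

theorem coeff_G (p : ℕ) (hp : 1 ≤ p) (v : ℕ) : ∀ j, coeff j (G p v) =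
    if j < 2 ^ (v + 1) * p ∧ j % (2 * p) < p then 1 else 0 := by
  induction v with
  | zero =>
    intro j
    have h1 : G p 0 = iv p := by unfold G; simp
    rw [h1, coeff_iv]
    by_cases h : j < p
    · rw [if_pos h, if_pos]
      refine ⟨by omega, ?_⟩
      rw [Nat.mod_eq_of_lt (by omega)]
      exact h
    · rw [if_neg h, if_neg]
      rintro ⟨h2, h3⟩
      rw [Nat.mod_eq_of_lt (by omega)] at h3
      exact h h3
  | succ v ih =>
    intro j
    rw [G_succ, mul_add, mul_one, map_add, coeff_mul_X_pow', ih]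
    have e1 : 2 ^ (v + 1 + 1) * p = 2 * (2 ^ (v + 1) * p) := by ring
    have e2 : 2 ^ (v + 1) * p = 2 * p * 2 ^ v := by ring
    by_cases h : j < 2 ^ (v + 1) * p
    · rw [if_neg (show ¬ 2 ^ (v + 1) * p ≤ j by omega), add_zero]
      by_cases h3 : j % (2 * p) < p
      · rw [if_pos ⟨h, h3⟩, if_pos ⟨by omega, h3⟩]
      · rw [if_neg (fun hh => h3 hh.2), if_neg (fun hh => h3 hh.2)]
    · rw [if_neg (fun hh => h hh.1), zero_add, if_pos (show 2 ^ (v + 1) * p ≤ j by omega), ih]
      have e3 : (j - 2 ^ (v + 1) * p) % (2 * p) = j % (2 * p) := by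
        conv_rhs => rw [← Nat.sub_add_cancel (show 2 ^ (v + 1) * p ≤ j by omega)]
        rw [e2, Nat.add_mul_mod_self_left]
      rw [e3]
      by_cases h3 : j < 2 ^ (v + 1 + 1) * p ∧ j % (2 * p) < p
      · rw [if_pos h3, if_pos ⟨by omega, h3.2⟩]
      · rw [if_neg h3, if_neg]
        rintro ⟨h4, h5⟩
        exact h3 ⟨by omega, h5⟩

theorem F_eq (m : ℕ) : F m = G (op m) (padicValNat 2 m) := rfl

end FF

open FF in
theorem FF_thm (h : OPStmt) : FFStmt := by
  obtain ⟨h1, -, -⟩ := h
  have hc : ∀ m, 1 ≤ m → ∀ j, coeff j (F m) =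
      if j < 2 * m ∧ j % (2 * op m) < op m then 1 else 0 := by
    intro m hm j
    obtain ⟨_, hp, _, he⟩ := h1 m hm
    rw [F_eq, coeff_G _ hp]
    have : 2 ^ (padicValNat 2 m + 1) * op m = 2 * m := by
      conv_rhs => rw [he]
      ring
    rw [this]
  refine ⟨hc, ?_, ?_⟩
  · intro m hm
    obtain ⟨_, hp, _, he⟩ := h1 m hm
    rw [F_eq, G_mul]
    have : 2 ^ (padicValNat 2 m + 1) * op m = 2 * m := by
      conv_rhs => rw [he]
      ring
    rw [this]
  · intro m hm
    obtain ⟨_, hp, hle, he⟩ := h1 m hm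
    obtain ⟨p, hpp⟩ : ∃ p, p = op m := ⟨_, rfl⟩
    obtain ⟨t, htt⟩ : ∃ t, t = 2 ^ padicValNat 2 m := ⟨_, rfl⟩
    rw [← hpp] at hp hle
    rw [← hpp, ← htt] at he
    have ht : 1 ≤ t := by rw [htt]; exact Nat.one_le_two_pow
    have he2 : 2 * m = 2 * p * t := by rw [he]; ring
    have key : ∀ k, k < 2 * m → k % (2 * p) < p → ∃ s, s < t ∧ k = 2 * p * s + k % (2 * p) := by
      intro k hk _
      refine ⟨k / (2 * p), ?_, (Nat.div_add_mod k (2 * p)).symm⟩
      rw [he2] at hk
      exact Nat.div_lt_of_lt_mul hk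
    constructor
    · intro k hk
      rw [hc m hm, ← hpp, if_neg]
      rintro ⟨h2, h3⟩
      obtain ⟨s, hs, hks⟩ := key k h2 h3
      have h4 : 2 * p * (s + 1) ≤ 2 * p * t := Nat.mul_le_mul_left _ hs
      have h5 : 2 * p * (s + 1) = 2 * p * s + 2 * p := by ring
      rw [← hpp] at hk
      omega
    · intro k hk
      rw [hc m hm, hc m hm, ← hpp]
      rw [← hpp] at hk
      have hk2 : k < 2 * m := by omega
      obtain ⟨s, hks⟩ : ∃ s, s = k / (2 * p) := ⟨_, rfl⟩
      have hdm := Nat.div_add_mod k (2 * p)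
      have hml := Nat.mod_lt k (show 0 < 2 * p by omega)
      rw [← hks] at hdm
      have hs : s < t := by
        rw [hks]
        apply Nat.div_lt_of_lt_mul
        omega
      obtain ⟨z, hz⟩ : ∃ z, z = k % (2 * p) := ⟨_, rfl⟩
      rw [← hz] at hdm hml ⊢
      obtain ⟨u, hu⟩ : ∃ u, t = s + 1 + u := ⟨t - (s + 1), by omega⟩
      have e1 : 2 * p * t = 2 * p * s + 2 * p + 2 * p * u := by rw [hu]; ring
      by_cases hzp : z < p
      · have e2 : (2 * m - p - 1 - k) = (p - 1 - z) + 2 * p * u := by omega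
        have e3 : (2 * m - p - 1 - k) % (2 * p) = p - 1 - z := by
          rw [e2, Nat.add_mul_mod_self_left]
          exact Nat.mod_eq_of_lt (by omega)
        rw [e3, if_pos ⟨by omega, by omega⟩, if_pos ⟨hk2, hzp⟩]
      · rw [if_neg (show ¬ (k < 2 * m ∧ z < p) from fun hh => hzp hh.2), if_neg]
        rintro ⟨_, h4⟩
        have hu1 : 1 ≤ u := by
          by_contra hcon
          have : u = 0 := by omega
          subst this
          omega
        obtain ⟨u', hu'⟩ : ∃ u', u = u' + 1 := ⟨u - 1, by omega⟩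
        have e4 : 2 * p * u = 2 * p * u' + 2 * p := by rw [hu']; ring
        have e2 : (2 * m - p - 1 - k) = (3 * p - 1 - z) + 2 * p * u' := by omega
        have e3 : (2 * m - p - 1 - k) % (2 * p) = 3 * p - 1 - z := by
          rw [e2, Nat.add_mul_mod_self_left]
          exact Nat.mod_eq_of_lt (by omega)
        omega

end Pool.Agent.H95.UM
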