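import Pool.Agent.H37.UM.Stmts

/-!
# Module TB1 of project UM (MP_a56223_co): the blocks `M - 1, M, M + 1` with `4 ∣ M`
-/

set_option autoImplicit false

namespace Pool.Agent.H95.UM

open Pool.Agent.H37.UM PowerSeries Finset

namespace TB1

/-- partial sums of the coefficients -/
noncomputable def PS (f : ℤ⟦X⟧) (n : ℕ) : ℤ := ∑ i ∈ range n, coeff i f

theorem PS_succ (f : ℤ⟦X⟧) (n : ℕ) : PS f (n + 1) = PS f n + coeff n f := by
  unfold PS
  rw [Finset.sum_range_succ]

theorem coeff_mul_iv (f : ℤ⟦X⟧) (n k : ℕ) : coeff k (f * iv n) = PS f (k + 1) - PS f (k + 1 - n) := by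
  induction n with
  | zero =>
    have : iv 0 = 0 := by unfold iv; simp
    rw [this]
    simp
  | succ n ih =>
    have h1 : iv (n + 1) = iv n + X ^ n := by
      unfold iv
      rw [Finset.sum_range_succ]
    rw [h1, mul_add, map_add, ih, coeff_mul_X_pow']
    by_cases h : n ≤ k
    · rw [if_pos h]
      have h2 : PS f (k + 1 - n) = PS f (k - n) + coeff (k - n) f := by
        rw [show k + 1 - n = (k - n) + 1 by omega, PS_succ]
      have h3 : k + 1 - (n + 1) = k - n := by omega
      rw [h2, h3]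
      ring
    · rw [if_neg h]
      have h2 : k + 1 - n = 0 := by omega
      have h3 : k + 1 - (n + 1) = 0 := by omega
      rw [h2, h3]
      ring

theorem iv_mul (p : ℕ) : (1 - X) * iv p = 1 - X ^ p := by
  unfold iv
  have := geom_sum_mul_neg (X : ℤ⟦X⟧) p
  rw [mul_comm]
  exact this

end TB1

open TB1 in
theorem TB1_thm (h1 : OPStmt) (h2 : FFStmt) (_ : SUMStmt) (h4 : UUStmt) : TB1Stmt := by
  obtain ⟨a1, a2, a3⟩ := h1
  obtain ⟨b1, b2, b3⟩ := h2
  obtain ⟨d1, -⟩ := h4
  intro N hN hN4
  obtain ⟨M, rfl⟩ : ∃ M, N = M + 1 := ⟨N - 1, by omega⟩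
  have hM : 4 ≤ M := by omega
  have hM4 : M % 4 = 0 := by omega
  have hsym := d1 (M + 1 - 3) (M + 1)
  refine ⟨hsym, ?_⟩
  obtain ⟨_, hp1, hp2, hp3⟩ := a1 M (by omega)
  -- odd parts of the neighbours
  have hodd : ∀ m, m % 2 = 1 → op m = m := by
    intro m hm
    have := a3 (m / 2)
    rwa [show 2 * (m / 2) + 1 = m by omega] at this
  have hF : ∀ m, 1 ≤ m → m % 2 = 1 → F m = iv m := by
    intro m hm1 hm
    ext j
    rw [b1 m hm1, hodd m hm]
    unfold iv
    rw [map_sum]
    simp only [coeff_X_pow]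
    by_cases h : j < m
    · rw [if_pos ⟨by omega, by rw [Nat.mod_eq_of_lt (by omega)]; exact h⟩, Finset.sum_eq_single j]
      · rw [if_pos rfl]
      · intro b _ hb
        rw [if_neg (Ne.symm hb)]
      · intro h'
        exact absurd (Finset.mem_range.2 h) h'
    · rw [if_neg (fun hh => by
        have := hh.2
        rw [Nat.mod_eq_of_lt (by omega)] at this
        exact h this)]
      symm
      apply Finset.sum_eq_zero
      intro b hb
      rw [if_neg]
      intro he
      subst he
      exact h (Finset.mem_range.1 hb)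
  have hset : Ioc (M + 1 - 3) (M + 1) = {M - 1, M, M + 1} := by
    ext x
    simp only [Finset.mem_Ioc, Finset.mem_insert, Finset.mem_singleton]
    omega
  have hU : U (M + 1 - 3) (M + 1) = iv (M - 1) * (F M * iv (M + 1)) := by
    unfold U
    rw [hset, Finset.prod_insert (by simp; omega), Finset.prod_insert (by simp),
      Finset.prod_singleton, hF (M - 1) (by omega) (by omega), hF (M + 1) (by omega) (by omega)]
  have hdU : dU (M + 1 - 3) (M + 1) + op M + 3 = 4 * M := by
    unfold dU
    rw [hset, Finset.sum_insert (by simp; omega), Finset.sum_insert (by simp),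
      Finset.sum_singleton, hodd (M - 1) (by omega), hodd (M + 1) (by omega)]
    omega
  -- structure of `M`
  obtain ⟨p, hpp⟩ : ∃ p, p = op M := ⟨_, rfl⟩
  rw [← hpp] at hp1 hp2 hdU
  obtain ⟨c, hc⟩ : ∃ c, M = 2 * p * c := by
    have hv : padicValNat 2 M ≠ 0 := by
      intro h0
      rw [h0, pow_zero, one_mul] at hp3
      have := (a1 M (by omega)).1
      rw [← hp3] at this
      obtain ⟨z, hz⟩ := this
      omega
    obtain ⟨v, hv⟩ := Nat.exists_eq_succ_of_ne_zero hv
    refine ⟨2 ^ v, ?_⟩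
    rw [hp3, hv, hpp]
    conv_lhs => rw [pow_succ]
    conv_rhs => rw [← hpp, hpp]
    ring
  have hmod : ∀ x, (M + x) % (2 * p) = x % (2 * p) := by
    intro x
    rw [hc, Nat.mul_add_mod]
  let χ : ℕ → ℤ := fun j => if j % (2 * p) < p then 1 else 0
  have hχ0 : ∀ j, 0 ≤ χ j := by
    intro j
    simp only [χ]
    split <;> omega
  have hχM : ∀ j, χ (M + j) = χ j := by
    intro j
    simp only [χ]
    rw [hmod]
  let cn : ℕ → ℤ := fun n => ∑ j ∈ range n, χ j
  have hcs : ∀ n, cn (n + 1) = cn n + χ n := fun n => Finset.sum_range_succ _ _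
  have hcn0 : cn 0 = 0 := Finset.sum_range_zero _
  have hcmono : ∀ a b, a ≤ b → cn a ≤ cn b := by
    intro a b hab
    induction b, hab using Nat.le_induction with
    | base => exact le_rfl
    | succ n _ ih => rw [hcs]; have := hχ0 n; linarith
  have hcM : ∀ x, cn (M + x) = cn M + cn x := by
    intro x
    induction x with
    | zero => rw [hcn0]; simp
    | succ x ih => rw [← add_assoc, hcs, ih, hcs, hχM]; ring
  have hPS : ∀ n, n ≤ 2 * M → PS (F M) n = cn n := by
    intro n
    induction n with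
    | zero => intro _; rw [hcn0]; unfold PS; simp
    | succ n ih =>
      intro hn
      rw [PS_succ, hcs, ih (by omega), b1 M (by omega), ← hpp]
      congr 1
      simp only [χ]
      by_cases h : n % (2 * p) < p
      · rw [if_pos ⟨by omega, h⟩, if_pos h]
      · rw [if_neg (fun hh => h hh.2), if_neg h]
  have hcn1 : cn 1 = 1 := by
    rw [show (1 : ℕ) = 0 + 1 from rfl, hcs, hcn0]
    simp only [χ]
    rw [if_pos (by rw [Nat.zero_mod]; omega)]
    ring
  intro k hk
  have hk2 : k + 2 ≤ 2 * M := by omega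
  -- the difference
  have hdf : df (U (M + 1 - 3) (M + 1)) k = (cn (k + 1) - cn (k + 1 - (M + 1))) -
      (if M - 1 ≤ k then cn (k - (M - 1) + 1) - cn (k - (M - 1) + 1 - (M + 1)) else 0) := by
    unfold df
    rw [hU, ← mul_assoc, iv_mul, sub_mul, one_mul, map_sub, coeff_mul_iv, coeff_X_pow_mul',
      hPS _ (by omega), hPS _ (by omega)]
    congr 1
    by_cases h : M - 1 ≤ k
    · rw [if_pos h, if_pos h, coeff_mul_iv, hPS _ (by omega), hPS _ (by omega)]
    · rw [if_neg h, if_neg h]
  rw [hdf]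
  by_cases h : M - 1 ≤ k
  · rw [if_pos h, show k - (M - 1) + 1 - (M + 1) = 0 by omega, hcn0]
    by_cases h' : M + 1 ≤ k
    · obtain ⟨r, rfl⟩ : ∃ r, k = M + r := ⟨k - M, by omega⟩
      have e1 : M + r + 1 - (M + 1) = r := by omega
      have e2 : M + r - (M - 1) + 1 = r + 2 := by omega
      have e3 : M + r + 1 = M + (r + 1) := by omega
      rw [e1, e2, e3, hcM]
      have h5 : cn (r + 2) ≤ cn M := hcmono _ _ (by omega)
      have h6 : cn r ≤ cn (r + 1) := hcmono _ _ (by omega)
      linarith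
    · have e1 : k + 1 - (M + 1) = 0 := by omega
      rw [e1, hcn0]
      have h5 : cn (k - (M - 1) + 1) ≤ cn (k + 1) := hcmono _ _ (by omega)
      linarith
  · rw [if_neg h, show k + 1 - (M + 1) = 0 by omega, hcn0]
    have h5 : cn 0 ≤ cn (k + 1) := hcmono _ _ (by omega)
    rw [hcn0] at h5
    linarith

end Pool.Agent.H95.UM
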