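import Pool.Agent.H37.UM.Stmts

/-!
# Module TU of project UM (MP_a56223_co): upper bound for `Te N r` by the second order Taylor bound of its
logarithm
-/

set_option autoImplicit false

namespace Pool.Agent.H95.UM

open Pool.Agent.H37.UM PowerSeries Finset

namespace TU

/-- moments of the tilted coefficients -/
noncomputable def S (N p : ℕ) (s : ℝ) : ℝ :=
  ∑ i ∈ range (dg N + 1), (i : ℝ) ^ p * (((coeff i (T N) : ℤ) : ℝ) * Real.exp (-s) ^ i)

theorem hasDeriv_S (N p : ℕ) (s : ℝ) : HasDerivAt (S N p) (- S N (p + 1) s) s := by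
  unfold S
  rw [← Finset.sum_neg_distrib]
  apply HasDerivAt.fun_sum
  intro i _
  have h1 : HasDerivAt (fun s : ℝ => Real.exp (-s) ^ i) (-(i : ℝ) * Real.exp (-s) ^ i) s := by
    have h2 : HasDerivAt (fun s : ℝ => Real.exp (-(i : ℝ) * s))
        (Real.exp (-(i : ℝ) * s) * (-(i : ℝ))) s := by
      have h3 : HasDerivAt (fun s : ℝ => -(i : ℝ) * s) (-(i : ℝ)) s := by
        simpa using (hasDerivAt_id s).const_mul (-(i : ℝ))
      exact h3.exp
    have e : ∀ s : ℝ, Real.exp (-s) ^ i = Real.exp (-(i : ℝ) * s) := by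
      intro s
      rw [← Real.exp_nat_mul]
      congr 1
      ring
    have e2 : (fun s : ℝ => Real.exp (-s) ^ i) = (fun s : ℝ => Real.exp (-(i : ℝ) * s)) :=
      funext e
    rw [e2, e s]
    convert h2 using 1
    ring
  have h4 := (h1.const_mul ((coeff i (T N) : ℤ) : ℝ)).const_mul ((i : ℝ) ^ p)
  exact h4.congr_deriv (by ring)

end TU

open TU in
theorem TU_thm (h1 : MOAStmt) (h2 : MOBStmt) (h3 : VAStmt) : TUStmt := by
  obtain ⟨a1, a2, a3, -, -⟩ := h1
  obtain ⟨b1, -⟩ := h2
  obtain ⟨-, c2, -⟩ := h3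
  intro N r hr hr1
  have hS0 : ∀ s, S N 0 s = Te N (Real.exp (-s)) := by
    intro s
    rw [a1]
    unfold S
    simp
  have hpos : ∀ s, 0 < S N 0 s := by
    intro s
    rw [hS0]
    exact a2 N _ (Real.exp_pos _)
  have hmu : ∀ s, mu N (Real.exp (-s)) = S N 1 s / S N 0 s := by
    intro s
    rw [hS0]
    unfold mu S
    simp
  have hva : ∀ s, va N (Real.exp (-s)) = S N 2 s / S N 0 s - (S N 1 s / S N 0 s) ^ 2 := by
    intro s
    rw [← hmu, hS0]
    unfold va S
    rfl
  -- first derivative
  have hg : ∀ s, HasDerivAt (fun s => S N 1 s / S N 0 s) (-(va N (Real.exp (-s)))) s := by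
    intro s
    have h := (hasDeriv_S N 1 s).div (hasDeriv_S N 0 s) (hpos s).ne'
    refine h.congr_deriv ?_
    rw [hva]
    have := (hpos s).ne'
    field_simp
    ring
  have hvs : ∀ s, 0 ≤ s → va N (Real.exp (-s)) ≤ sg N := by
    intro s hs
    exact c2 N _ (Real.exp_pos _) (by rw [Real.exp_le_one_iff]; linarith)
  have hg2 : MonotoneOn (fun s => S N 1 s / S N 0 s + s * sg N) (Set.Ici 0) := by
    apply monotoneOn_of_deriv_nonneg (convex_Ici 0)
    · intro s _
      exact ((hg s).continuousAt.add (continuousAt_id.mul continuousAt_const)).continuousWithinAt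
    · intro s _
      exact ((hg s).add ((hasDerivAt_id s).mul_const (sg N))).differentiableAt.differentiableWithinAt
    · intro s hs
      rw [interior_Ici] at hs
      have h := (hg s).add ((hasDerivAt_id s).mul_const (sg N))
      have h' : deriv (fun s => S N 1 s / S N 0 s + s * sg N) s =
          -(va N (Real.exp (-s))) + 1 * sg N := h.deriv
      rw [h']
      have := hvs s (le_of_lt hs)
      linarith
  have hg3 : ∀ s, 0 ≤ s → (dg N : ℝ) / 2 ≤ S N 1 s / S N 0 s + s * sg N := by
    intro s hs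
    have := hg2 (Set.mem_Ici.2 le_rfl) (Set.mem_Ici.2 hs) hs
    simp only [zero_mul, add_zero] at this
    rw [← hmu 0] at this
    simp only [neg_zero, Real.exp_zero] at this
    rw [b1] at this
    exact this
  -- the logarithm
  have hf : ∀ s, HasDerivAt (fun s => Real.log (S N 0 s)) (-(S N 1 s / S N 0 s)) s := by
    intro s
    have h := (hasDeriv_S N 0 s).log (hpos s).ne'
    exact h.congr_deriv (by rw [zero_add, neg_div])
  have hf2 : AntitoneOn (fun s => Real.log (S N 0 s) + s * ((dg N : ℝ) / 2) - s ^ 2 * (sg N / 2))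
      (Set.Ici 0) := by
    have hd : ∀ s, HasDerivAt (fun s => Real.log (S N 0 s) + s * ((dg N : ℝ) / 2) -
        s ^ 2 * (sg N / 2)) (-(S N 1 s / S N 0 s) + 1 * ((dg N : ℝ) / 2) -
        ((2 : ℕ) * s ^ (2 - 1)) * (sg N / 2)) s := by
      intro s
      exact ((hf s).add ((hasDerivAt_id s).mul_const _)).sub ((hasDerivAt_pow 2 s).mul_const _)
    apply antitoneOn_of_deriv_nonpos (convex_Ici 0)
    · intro s _
      exact (hd s).continuousAt.continuousWithinAt
    · intro s _
      exact (hd s).differentiableAt.differentiableWithinAt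
    · intro s hs
      rw [interior_Ici] at hs
      rw [(hd s).deriv]
      have := hg3 s (le_of_lt hs)
      simp only [Nat.cast_ofNat, Nat.add_one_sub_one, pow_one]
      linarith
  have hs0 : 0 ≤ -Real.log r := by
    have := Real.log_nonpos hr.le hr1
    linarith
  have h5 := hf2 (Set.mem_Ici.2 le_rfl) (Set.mem_Ici.2 hs0) hs0
  simp only [zero_mul, add_zero, ne_eq, OfNat.ofNat_ne_zero, not_false_eq_true, zero_pow, sub_zero,
    neg_sq] at h5
  rw [hS0, hS0] at h5
  simp only [neg_neg, neg_zero, Real.exp_zero] at h5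
  rw [Real.exp_log hr, a3] at h5
  have hfac : (0 : ℝ) < (N.factorial : ℝ) := by exact_mod_cast N.factorial_pos
  have h6 : Real.log (Te N r) ≤ Real.log (N.factorial : ℝ) + Real.log r * ((dg N : ℝ) / 2) +
      (Real.log r) ^ 2 * sg N / 2 := by linarith
  have h7 : Te N r = Real.exp (Real.log (Te N r)) := (Real.exp_log (a2 N r hr)).symm
  rw [h7]
  refine (Real.exp_le_exp.2 h6).trans ?_
  rw [Real.exp_add, Real.exp_add, Real.exp_log hfac, Real.rpow_def_of_pos hr]

end Pool.Agent.H95.UM
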